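import Pool.Agent.R276.SI.Stm

/-! SI-A: algebra of singular integral operators (helper515). -/

set_option autoImplicit false

noncomputable section

namespace Pool.Agent.R276.SI

open MeasureTheory AddCircle Set Filter Topology Metric
open scoped ENNReal NNReal
open Pool.Agent.Y283.TO

namespace Alg

theorem hasSum_cexp (f : CT) :
    HasSum (fun n : ℕ => ((n.factorial : ℂ))⁻¹ • f ^ n) (cexp f) := by
  have h := NormedSpace.exp_series_hasSum_exp' (𝕂 := ℂ) f
  have h2 : NormedSpace.exp f = cexp f := by
    ext t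
    have h3 := (ContinuousMap.evalCLM ℂ t : CT →L[ℂ] ℂ).hasSum h
    have h4 := NormedSpace.exp_series_hasSum_exp' (𝕂 := ℂ) (f t)
    rw [cexp_apply, Complex.exp_eq_exp_ℂ]
    exact h3.unique h4
  rwa [h2] at h

theorem hasSum_psm (c : ℕ → ℂ) (hc : Summable fun n => ‖c n‖) :
    HasSum (fun n : ℕ => c n • (fourier (-(n : ℤ)) : CT)) (psm c) := by
  have hs : Summable fun n : ℕ => c n • (fourier (-(n : ℤ)) : CT) := by
    refine Summable.of_norm (hc.congr fun n => ?_)
    rw [norm_smul, fourier_norm, mul_one]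
  have h := hs.hasSum
  have h2 : ∑' n : ℕ, c n • (fourier (-(n : ℤ)) : CT) = psm c := by
    ext t
    exact ((ContinuousMap.evalCLM ℂ t : CT →L[ℂ] ℂ).hasSum h).unique (psm_apply c hc t)
  rwa [h2] at h

/-- a closed multiplicative condition passes from a summable series to its exponential -/
theorem exp_of_closed {Y : Type} [NormedAddCommGroup Y] [NormedSpace ℂ Y] (L : CT →L[ℂ] Y)
    (h1 : L 1 = 0) (hmul : ∀ f g, L f = 0 → L g = 0 → L (f * g) = 0) {g : ℕ → CT} {c : ℕ → ℂ}
    {s : CT} (hg : ∀ n, L (g n) = 0) (hs : HasSum (fun n => c n • g n) s) : L (cexp s) = 0 := by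
  have h2 : L s = 0 := by
    have h3 := L.hasSum hs
    have h4 : (fun n => L (c n • g n)) = fun _ => 0 := by
      funext n
      rw [map_smul, hg n, smul_zero]
    rw [h4] at h3
    exact h3.unique hasSum_zero
  have hpow : ∀ n : ℕ, L (s ^ n) = 0 := by
    intro n
    induction n with
    | zero => rw [pow_zero]; exact h1
    | succ n ih => rw [pow_succ]; exact hmul _ _ ih h2
  have h3 := L.hasSum (hasSum_cexp s)
  have h4 : (fun n : ℕ => L (((n.factorial : ℂ))⁻¹ • s ^ n)) = fun _ => 0 := by
    funext n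
    rw [map_smul, hpow n, smul_zero]
  rw [h4] at h3
  exact h3.unique hasSum_zero

theorem main : S_ALG := by
  intro X _ _ e ε₀ M P H
  obtain ⟨K, hK0, hK⟩ := H.bound
  set Mc : CT →L[ℂ] (X →L[ℂ] X) :=
    LinearMap.mkContinuous ⟨⟨M, H.add⟩, H.smul⟩ K (fun a => hK a) with hMc
  have hMcf : ∀ f, Mc f = M f := fun f => rfl
  have ext' : ∀ A B : X →L[ℂ] X, (∀ n, A (e n) = B (e n)) → A = B := by
    intro A B h
    refine ContinuousLinearMap.ext_on H.dense ?_
    rintro _ ⟨n, rfl⟩
    exact h n
  have hPP : P * P = P := by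
    refine ext' _ _ fun n => ?_
    rw [mul_apply_eq_comp, H.proj]
    split_ifs with h
    · rw [H.proj, if_pos h]
    · rw [map_zero]
  -- analytic
  set LA : CT →L[ℂ] (X →L[ℂ] X) :=
    (((ContinuousLinearMap.mul ℂ (X →L[ℂ] X)).flip P).comp
      ((ContinuousLinearMap.mul ℂ (X →L[ℂ] X) P).comp Mc)) -
    ((ContinuousLinearMap.mul ℂ (X →L[ℂ] X)).flip P).comp Mc with hLA
  have hLAf : ∀ f, LA f = P * M f * P - M f * P := fun f => rfl
  set LB : CT →L[ℂ] (X →L[ℂ] X) :=
    (((ContinuousLinearMap.mul ℂ (X →L[ℂ] X)).flip P).comp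
      ((ContinuousLinearMap.mul ℂ (X →L[ℂ] X) P).comp Mc)) -
    (ContinuousLinearMap.mul ℂ (X →L[ℂ] X) P).comp Mc with hLB
  have hLBf : ∀ f, LB f = P * M f * P - P * M f := fun f => rfl
  have hA : ∀ c : ℕ → ℂ, (Summable fun n => ‖c n‖) →
      P * M (cexp (ps c)) * P = M (cexp (ps c)) * P := by
    intro c hc
    have h := exp_of_closed LA (g := fun n : ℕ => (fourier (n : ℤ) : CT)) ?_ ?_ ?_ (hasSum_ps c hc)
    · rw [hLAf, sub_eq_zero] at h
      exact h
    · rw [hLAf, H.one, mul_one, hPP, one_mul, sub_self]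
    · intro f g hf hg
      rw [hLAf, sub_eq_zero] at hf hg ⊢
      calc P * M (f * g) * P = P * M f * (M g * P) := by rw [H.mul]; simp only [mul_assoc]
        _ = P * M f * (P * M g * P) := by rw [hg]
        _ = (P * M f * P) * (M g * P) := by simp only [mul_assoc]
        _ = M f * P * (M g * P) := by rw [hf]
        _ = M f * (P * M g * P) := by simp only [mul_assoc]
        _ = M f * (M g * P) := by rw [hg]
        _ = M (f * g) * P := by rw [H.mul, mul_assoc]
    · intro m
      rw [hLAf, sub_eq_zero]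
      refine ext' _ _ fun n => ?_
      simp only [mul_apply_eq_comp]
      rw [H.proj]
      split_ifs with h
      · rw [H.shift, H.proj, if_pos (by omega)]
      · rw [map_zero, map_zero]
  have hB : ∀ c : ℕ → ℂ, (Summable fun n => ‖c n‖) →
      P * M (cexp (psm c)) * P = P * M (cexp (psm c)) := by
    intro c hc
    have h := exp_of_closed LB (g := fun n : ℕ => (fourier (-(n : ℤ)) : CT)) ?_ ?_ ?_
      (hasSum_psm c hc)
    · rw [hLBf, sub_eq_zero] at h
      exact h
    · rw [hLBf, H.one, mul_one, hPP, sub_self]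
    · intro f g hf hg
      rw [hLBf, sub_eq_zero] at hf hg ⊢
      calc P * M (f * g) * P = (P * M f) * (M g * P) := by rw [H.mul]; simp only [mul_assoc]
        _ = (P * M f * P) * (M g * P) := by rw [hf]
        _ = P * M f * (P * M g * P) := by simp only [mul_assoc]
        _ = P * M f * (P * M g) := by rw [hg]
        _ = P * M f * P * M g := by simp only [mul_assoc]
        _ = P * M f * M g := by rw [hf]
        _ = P * M (f * g) := by rw [H.mul, mul_assoc]
    · intro m
      rw [hLBf, sub_eq_zero]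
      refine ext' _ _ fun n => ?_
      simp only [mul_apply_eq_comp]
      rw [H.proj n]
      split_ifs with h
      · rfl
      · rw [map_zero, map_zero, H.shift, H.proj, if_neg (by omega)]
  refine ⟨hPP, fun c hc => ⟨hA c hc, hB c hc⟩, ?_, ?_⟩
  · intro g n
    have h : (ε₀.comp ((ContinuousLinearMap.apply ℂ X (e n)).comp Mc)) = ft (-n) := by
      refine ContinuousLinearMap.ext_on (s := Set.range (fun n : ℤ => (fourier n : CT))) ?_ ?_
      · rw [Submodule.dense_iff_topologicalClosure_eq_top]
        exact span_fourier_closure_eq_top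
      · rintro _ ⟨m, rfl⟩
        change ε₀ (M (fourier m) (e n)) = ft (-n) (fourier m)
        rw [H.shift, H.coord, ft_fourier]
        congr 1
        simp only [eq_iff_iff]
        omega
    exact congrArg (fun φ : CT →L[ℂ] ℂ => φ g) h
  · intro k d hk hd
    rw [mul_comm, H.mul, mul_apply_eq_comp, H.shift, zero_add]
    have h := congrArg (fun A : X →L[ℂ] X => A (e k)) (hB d hd)
    simp only [mul_apply_eq_comp] at h
    rw [← h, H.proj k, if_neg (by omega), map_zero, map_zero]

end Alg

end Pool.Agent.R276.SI
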