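import Pool.Agent.R276.SI.Stm

/-!
# SI-B (MP_5ac32f_an): the values of the coefficients are in the spectrum (helper743)
-/

set_option autoImplicit false

noncomputable section

namespace Pool.Agent.R276.SI.Ess

open MeasureTheory AddCircle Set Filter Topology Metric
open scoped ENNReal NNReal
open Pool.Agent.Y283.TO Pool.Agent.R276.SI

variable {X : Type} [NormedAddCommGroup X] [NormedSpace ℂ X] {e : ℤ → X} {ε₀ : X →L[ℂ] ℂ}
  {M : CT → (X →L[ℂ] X)} {P : X →L[ℂ] X}

/-- `M` as a linear map -/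
def ML (hS : SIO e ε₀ M P) : CT →ₗ[ℂ] (X →L[ℂ] X) where
  toFun := M
  map_add' := hS.add
  map_smul' := hS.smul

theorem cont_M (hS : SIO e ε₀ M P) : Continuous M := by
  obtain ⟨K, _, hK⟩ := hS.bound
  exact (LinearMap.mkContinuous (ML hS) K hK).continuous

theorem M_sub (hS : SIO e ε₀ M P) (a b : CT) : M (a - b) = M a - M b := (ML hS).map_sub a b

theorem M_zero (hS : SIO e ε₀ M P) : M 0 = 0 := (ML hS).map_zero

/-- trigonometric polynomials -/
abbrev TP : Submodule ℂ CT := Submodule.span ℂ (Set.range (fourier (T := (1 : ℝ))))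

theorem dense_four : Dense (TP : Set CT) := by
  rw [Submodule.dense_iff_topologicalClosure_eq_top]
  exact span_fourier_closure_eq_top (T := (1 : ℝ))

theorem coef (hS : SIO e ε₀ M P) (g : CT) (n : ℤ) : ε₀ (M g (e n)) = ft (-n) g := by
  have h1 : Continuous fun g : CT => ε₀ (M g (e n)) :=
    ε₀.continuous.comp ((cont_M hS).clm_apply continuous_const)
  have h2 : Continuous fun g : CT => ft (-n) g := (ft (-n)).continuous
  have h3 : ∀ g ∈ TP, ε₀ (M g (e n)) = ft (-n) g := by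
    intro g hg
    induction hg using Submodule.span_induction with
    | mem x hx =>
      obtain ⟨m, rfl⟩ := hx
      rw [hS.shift, hS.coord, ft_fourier]
      have : (n + m = 0) = (-n = m) := by
        apply propext
        constructor <;> intro h <;> omega
      simp only [this]
    | zero => rw [M_zero hS, map_zero]; simp
    | add x y _ _ hx hy => rw [hS.add, map_add, ← hx, ← hy]; simp
    | smul c x _ hx => rw [hS.smul, map_smul, ← hx]; simp
  exact closure_minimal h3 (isClosed_eq h1 h2) (dense_four g)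

theorem eq_zero_of_ft (h : CT) (hh : ∀ n, ft n h = 0) : h = 0 := by
  have h1 := parseval h
  have h2 : (fun n : ℤ => ‖ft n h‖ ^ 2) = fun _ => 0 := by
    funext n
    rw [hh n]; simp
  rw [h2] at h1
  have h3 : ∫ t, ‖h t‖ ^ 2 ∂haarAddCircle = 0 := h1.unique hasSum_zero
  have hc : Continuous fun t => ‖h t‖ ^ 2 := (h.continuous.norm.pow 2)
  have hi : Integrable (fun t => ‖h t‖ ^ 2) (haarAddCircle (T := (1 : ℝ))) :=
    hc.integrable_of_hasCompactSupport (HasCompactSupport.of_compactSpace _)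
  rw [integral_eq_zero_iff_of_nonneg (fun t => by positivity) hi] at h3
  have h4 : (fun t => ‖h t‖ ^ 2) = 0 :=
    (Continuous.ae_eq_iff_eq (haarAddCircle (T := (1 : ℝ))) hc continuous_zero).1 h3
  ext t
  have h5 := congrFun h4 t
  simpa using h5

theorem key (hS : SIO e ε₀ M P) (A : X →L[ℂ] X) (z : ℂ) (C : ℝ) (hC : 0 ≤ C)
    (hA : ∀ x, ‖x‖ ≤ C * ‖z • x - A x‖) (f : CT)
    (hf : ∀ h ∈ TP, ∃ n : ℤ, z • (M (fourier n) (M h (e 0))) - A (M (fourier n) (M h (e 0))) =
      M (z • 1 - f) (M (fourier n) (M h (e 0)))) : ∀ t, f t ≠ z := by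
  obtain ⟨K, hK0, hK⟩ := hS.bound
  set u : CT := z • 1 - f with hu
  have hMK : ∀ (g : CT) (x : X), ‖M g x‖ ≤ K * ‖g‖ * ‖x‖ := fun g x =>
    ((M g).le_opNorm x).trans (mul_le_mul_of_nonneg_right (hK g) (norm_nonneg x))
  have hMm : ∀ (g h : CT) (x : X), M g (M h x) = M (g * h) x := by
    intro g h x
    rw [hS.mul]; rfl
  have hn1 : ∀ n : ℤ, ‖(fourier n : CT)‖ = 1 := fun n => fourier_norm n
  have s1 : ∀ h ∈ TP, ‖M h (e 0)‖ ≤ C * K ^ 2 * ‖M (u * h) (e 0)‖ := by
    intro h hh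
    obtain ⟨n, hn⟩ := hf h hh
    set y := M (fourier n) (M h (e 0)) with hy
    have e1 : M h (e 0) = M (fourier (-n)) y := by
      rw [hy, hMm, hMm, ← fourier_add_eq]
      have : -n + n = 0 := by ring
      rw [this, fourier_zero_eq, one_mul]
    have e2 : M u y = M (fourier n) (M (u * h) (e 0)) := by
      rw [hy, hMm, hMm, hMm]
      congr 2
      ring
    have b1 : ‖M h (e 0)‖ ≤ K * ‖y‖ := by
      have := hMK (fourier (-n)) y
      rw [hn1, mul_one] at this
      rwa [← e1] at this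
    have b2 : ‖y‖ ≤ C * (K * ‖M (u * h) (e 0)‖) := by
      refine (hA y).trans ?_
      rw [hn, e2]
      have := hMK (fourier n) (M (u * h) (e 0))
      rw [hn1, mul_one] at this
      exact mul_le_mul_of_nonneg_left this hC
    calc ‖M h (e 0)‖ ≤ K * ‖y‖ := b1
      _ ≤ K * (C * (K * ‖M (u * h) (e 0)‖)) := mul_le_mul_of_nonneg_left b2 hK0
      _ = _ := by ring
  have s2 : ∀ h : CT, ‖M h (e 0)‖ ≤ C * K ^ 2 * ‖M (u * h) (e 0)‖ := by
    intro h
    have c1 : Continuous fun g : CT => ‖M g (e 0)‖ :=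
      ((cont_M hS).clm_apply continuous_const).norm
    have c2 : Continuous fun g : CT => C * K ^ 2 * ‖M (u * g) (e 0)‖ :=
      continuous_const.mul
        (((cont_M hS).comp (continuous_const.mul continuous_id)).clm_apply continuous_const).norm
    exact closure_minimal s1 (isClosed_le c1 c2) (dense_four h)
  intro t0 ht0
  set c : ℝ := C * K ^ 2 with hc
  have hc0 : 0 ≤ c := by positivity
  set η : ℝ := 1 / (4 * (c * K + 1)) with hη
  have hη0 : 0 < η := by positivity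
  have hsmall : c * (K * (2 * η)) ≤ 1 / 2 := by
    rw [hη]
    have : c * (K * (2 * (1 / (4 * (c * K + 1))))) = (c * K) / (2 * (c * K + 1)) := by
      field_simp
      ring
    rw [this, div_le_div_iff₀ (by positivity) (by norm_num)]
    nlinarith [mul_nonneg hc0 hK0]
  let h : CT := ⟨fun t => ((max 0 (1 - ‖u t‖ / η) : ℝ) : ℂ), by fun_prop⟩
  let χ : CT := ⟨fun t => ((min 1 (max 0 (2 - ‖u t‖ / η)) : ℝ) : ℂ), by fun_prop⟩
  have hh : χ * h = h := by
    ext t
    change ((min 1 (max 0 (2 - ‖u t‖ / η)) : ℝ) : ℂ) * ((max 0 (1 - ‖u t‖ / η) : ℝ) : ℂ) =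
      ((max 0 (1 - ‖u t‖ / η) : ℝ) : ℂ)
    rcases le_total 0 (1 - ‖u t‖ / η) with h1 | h1
    · have h2 : min 1 (max 0 (2 - ‖u t‖ / η)) = 1 := by
        apply min_eq_left
        exact le_max_of_le_right (by linarith)
      rw [h2, Complex.ofReal_one, one_mul]
    · rw [max_eq_left h1]
      simp
  have hχ : ‖u * χ‖ ≤ 2 * η := by
    rw [ContinuousMap.norm_le _ (by positivity)]
    intro t
    rw [ContinuousMap.mul_apply, norm_mul]
    change ‖u t‖ * ‖((min 1 (max 0 (2 - ‖u t‖ / η)) : ℝ) : ℂ)‖ ≤ 2 * η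
    rw [Complex.norm_real, Real.norm_eq_abs,
      abs_of_nonneg (le_min zero_le_one (le_max_left _ _))]
    rcases le_total (‖u t‖) (2 * η) with h1 | h1
    · calc ‖u t‖ * min 1 (max 0 (2 - ‖u t‖ / η)) ≤ ‖u t‖ * 1 :=
            mul_le_mul_of_nonneg_left (min_le_left _ _) (norm_nonneg _)
        _ ≤ 2 * η := by rw [mul_one]; exact h1
    · have h2 : 2 - ‖u t‖ / η ≤ 0 := by
        have : 2 ≤ ‖u t‖ / η := by rwa [le_div_iff₀ hη0]
        linarith
      rw [max_eq_left h2, min_eq_right zero_le_one, mul_zero]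
      positivity
  have hz : ∀ g : CT, M (h * g) (e 0) = 0 := by
    intro g
    have e1 := s2 (h * g)
    have e2 : M (u * (h * g)) (e 0) = M (u * χ) (M (h * g) (e 0)) := by
      rw [hMm]
      congr 2
      rw [mul_assoc, ← mul_assoc χ h g, hh]
    have e3 : ‖M (u * χ) (M (h * g) (e 0))‖ ≤ K * (2 * η) * ‖M (h * g) (e 0)‖ :=
      (hMK _ _).trans (mul_le_mul_of_nonneg_right
        (mul_le_mul_of_nonneg_left hχ hK0) (norm_nonneg _))
    rw [e2] at e1
    have e4 : ‖M (h * g) (e 0)‖ ≤ 1 / 2 * ‖M (h * g) (e 0)‖ := by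
      calc ‖M (h * g) (e 0)‖ ≤ c * ‖M (u * χ) (M (h * g) (e 0))‖ := e1
        _ ≤ c * (K * (2 * η) * ‖M (h * g) (e 0)‖) := mul_le_mul_of_nonneg_left e3 hc0
        _ = c * (K * (2 * η)) * ‖M (h * g) (e 0)‖ := by ring
        _ ≤ _ := mul_le_mul_of_nonneg_right hsmall (norm_nonneg _)
    have e5 : ‖M (h * g) (e 0)‖ = 0 := by
      have := norm_nonneg (M (h * g) (e 0))
      linarith
    exact norm_eq_zero.1 e5
  have hzero : h = 0 := by
    apply eq_zero_of_ft
    intro n
    have e1 := coef hS (h * fourier (-n)) 0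
    rw [hz, map_zero, mul_comm, ft_fourier_mul] at e1
    have : -0 - -n = n := by ring
    rw [this] at e1
    exact e1.symm
  have h1 : h t0 = 1 := by
    change ((max 0 (1 - ‖u t0‖ / η) : ℝ) : ℂ) = 1
    have h2 : u t0 = 0 := by
      rw [hu]
      simp [ht0]
    rw [h2]
    simp
  rw [hzero] at h1
  simp at h1

theorem far (hS : SIO e ε₀ M P) (h : CT) (hh : h ∈ TP) :
    (∃ n0 : ℤ, ∀ n, n0 ≤ n → P (M (fourier n) (M h (e 0))) = M (fourier n) (M h (e 0))) ∧
    (∃ n0 : ℤ, ∀ n, n ≤ n0 → P (M (fourier n) (M h (e 0))) = 0) := by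
  induction hh using Submodule.span_induction with
  | mem x hx =>
    obtain ⟨m, rfl⟩ := hx
    refine ⟨⟨-m, fun n hn => ?_⟩, ⟨-m - 1, fun n hn => ?_⟩⟩
    · rw [hS.shift, hS.shift, hS.proj, if_pos (by omega)]
    · rw [hS.shift, hS.shift, hS.proj, if_neg (by omega)]
  | zero =>
    refine ⟨⟨0, fun n _ => ?_⟩, ⟨0, fun n _ => ?_⟩⟩
    · rw [M_zero hS]; simp
    · rw [M_zero hS]; simp
  | add x y _ _ hx hy =>
    obtain ⟨⟨n1, h1⟩, ⟨m1, k1⟩⟩ := hx
    obtain ⟨⟨n2, h2⟩, ⟨m2, k2⟩⟩ := hy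
    refine ⟨⟨max n1 n2, fun n hn => ?_⟩, ⟨min m1 m2, fun n hn => ?_⟩⟩
    · rw [hS.add, ContinuousLinearMap.add_apply, map_add, map_add,
        h1 n ((le_max_left _ _).trans hn), h2 n ((le_max_right _ _).trans hn)]
    · rw [hS.add, ContinuousLinearMap.add_apply, map_add, map_add,
        k1 n (hn.trans (min_le_left _ _)), k2 n (hn.trans (min_le_right _ _)), add_zero]
  | smul c x _ hx =>
    obtain ⟨⟨n1, h1⟩, ⟨m1, k1⟩⟩ := hx
    refine ⟨⟨n1, fun n hn => ?_⟩, ⟨m1, fun n hn => ?_⟩⟩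
    · rw [hS.smul, ContinuousLinearMap.smul_apply, map_smul, map_smul, h1 n hn]
    · rw [hS.smul, ContinuousLinearMap.smul_apply, map_smul, map_smul, k1 n hn, smul_zero]

/-- SI-B -/
theorem main : S_ESS := by
  intro X _ _ _ e ε₀ M P hS a b z hz
  rw [spectrum.mem_resolventSet_iff] at hz
  obtain ⟨R, hR⟩ := hz
  set A : X →L[ℂ] X := M a * P + M b * (1 - P) with hA
  have hAb : ∀ x, ‖x‖ ≤ ‖(↑R⁻¹ : X →L[ℂ] X)‖ * ‖z • x - A x‖ := by
    intro x
    have e1 : (↑R⁻¹ : X →L[ℂ] X) (z • x - A x) = x := by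
      have e2 : z • x - A x = (R : X →L[ℂ] X) x := by
        rw [hR, ContinuousLinearMap.sub_apply, Algebra.algebraMap_eq_smul_one,
          ContinuousLinearMap.smul_apply, ContinuousLinearMap.one_apply]
      rw [e2, ← ContinuousLinearMap.mul_apply, Units.inv_mul, ContinuousLinearMap.one_apply]
    calc ‖x‖ = ‖(↑R⁻¹ : X →L[ℂ] X) (z • x - A x)‖ := by rw [e1]
      _ ≤ _ := ContinuousLinearMap.le_opNorm _ _
  have hAp : ∀ y, P y = y → A y = M a y := by
    intro y hy
    rw [hA, ContinuousLinearMap.add_apply, ContinuousLinearMap.mul_apply,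
      ContinuousLinearMap.mul_apply, ContinuousLinearMap.sub_apply, ContinuousLinearMap.one_apply,
      hy, sub_self, map_zero, add_zero]
  have hAq : ∀ y, P y = 0 → A y = M b y := by
    intro y hy
    rw [hA, ContinuousLinearMap.add_apply, ContinuousLinearMap.mul_apply,
      ContinuousLinearMap.mul_apply, ContinuousLinearMap.sub_apply, ContinuousLinearMap.one_apply,
      hy, map_zero, sub_zero, zero_add]
  have hM : ∀ (f : CT) (y : X), z • y - M f y = M (z • 1 - f) y := by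
    intro f y
    rw [M_sub hS, hS.smul, hS.one]
    simp
  constructor
  · refine key hS A z _ (norm_nonneg _) hAb a fun h hh => ?_
    obtain ⟨⟨n, hn⟩, _⟩ := far hS h hh
    refine ⟨n, ?_⟩
    rw [hAp _ (hn n le_rfl), hM]
  · refine key hS A z _ (norm_nonneg _) hAb b fun h hh => ?_
    obtain ⟨_, ⟨n, hn⟩⟩ := far hS h hh
    refine ⟨n, ?_⟩
    rw [hAq _ (hn n le_rfl), hM]

end Pool.Agent.R276.SI.Ess
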