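import Pool.Agent.R276.SI.Stm

/-!
Project SI, part C: factorisation of `(a - z) / (b - z)` with bounds.
-/

set_option autoImplicit false

noncomputable section

open MeasureTheory AddCircle Set Filter Topology Metric
open scoped ENNReal
open Pool.Agent.Y283.TO

namespace Pool.Agent.R276.SI.Fac

lemma cexp_mul (a b : CT) : cexp a * cexp b = cexp (a + b) := by
  ext t
  rw [ContinuousMap.mul_apply, cexp_apply, cexp_apply, cexp_apply, ContinuousMap.add_apply,
    Complex.exp_add]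

lemma cexp_zero : cexp 0 = 1 := by
  ext t
  rw [cexp_apply, ContinuousMap.zero_apply, Complex.exp_zero, ContinuousMap.one_apply]

/-- Bound of the continuous logarithm on the unit interval. -/
lemma norm_lam_le (φ : CT) (z : ℂ) (L q : ℝ) (hL : 0 < L) (hq : 1 / 2 ≤ q) (hq2 : 2 * q ^ 2 < 1)
    (h : HD (rl φ) L q) (n : ℕ) (hc : Clean (fun t => rl φ t - z) (L * q ^ n) n)
    (lam : ℝ → ℂ) (hl : Continuous lam)
    (he : ∀ t : ℝ, Complex.exp (lam t) = φ (t : UnitAddCircle) - z) (h0 : |(lam 0).im| ≤ Real.pi)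
    (x : ℝ) (hx : x ∈ Icc (0 : ℝ) 1) :
    ‖lam x‖ ≤ (Real.log (1 + ‖φ‖ + ‖z‖) + |Real.log L| + 20) * (1 + n + bt φ z L q n) := by
  have hq0 : 0 < q := by linarith
  have hq1 : q < 1 := by nlinarith
  set w : ℝ → ℂ := fun t => rl φ t - z with hw
  have hwp : Function.Periodic w 1 := fun t => by
    simp only [hw]
    rw [rl_periodic φ t]
  have hr : ∀ n : ℕ, ∀ s t : ℝ, |s - t| ≤ (1 / 2) ^ n → ‖w s - w t‖ ≤ L * q ^ n := by
    intro n s t hst
    have := h n s t hst
    simpa [hw] using this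
  have him := lam_im_bound w lam hl he L q hL hq0 hwp hr n hc x hx
  have hlow := clean_lower w (L * q ^ n) n hwp (hr n) hc x
  have hre : (lam x).re = Real.log ‖w x‖ := by
    have : w x = Complex.exp (lam x) := (he x).symm
    rw [this, Complex.norm_exp, Real.log_exp]
  have hup : ‖w x‖ ≤ 1 + ‖φ‖ + ‖z‖ := by
    have h1 : ‖w x‖ ≤ ‖φ‖ + ‖z‖ :=
      (norm_sub_le _ _).trans (add_le_add (φ.norm_coe_le_norm _) le_rfl)
    linarith
  have hLq : 0 < L * q ^ n := by positivity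
  have hpos : 0 < ‖w x‖ := hLq.trans hlow
  have hlogup : Real.log ‖w x‖ ≤ Real.log (1 + ‖φ‖ + ‖z‖) := Real.log_le_log hpos hup
  have hloglow : -|Real.log L| - n ≤ Real.log ‖w x‖ := by
    have h1 : Real.log (L * q ^ n) ≤ Real.log ‖w x‖ := Real.log_le_log hLq hlow.le
    rw [Real.log_mul hL.ne' (by positivity), Real.log_pow] at h1
    have h2 := log_q_ge hq
    have h3 := neg_abs_le (Real.log L)
    have h4 : (0 : ℝ) ≤ n := Nat.cast_nonneg n
    nlinarith
  have hlog0 : 0 ≤ Real.log (1 + ‖φ‖ + ‖z‖) :=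
    Real.log_nonneg (by linarith [norm_nonneg φ, norm_nonneg z])
  have h1 := Complex.norm_le_abs_re_add_abs_im (lam x)
  have h2 : |(lam x).re| ≤ Real.log (1 + ‖φ‖ + ‖z‖) + |Real.log L| + n := by
    rw [hre, abs_le]
    have := abs_nonneg (Real.log L)
    have h4 : (0 : ℝ) ≤ n := Nat.cast_nonneg n
    constructor <;> linarith
  have h3 : |(lam x).im| ≤ Real.pi + (3 * Real.pi * bt φ z L q n + Real.pi * n + 1) := by
    have e : (lam x).im = (lam 0).im + (lam x - lam 0).im := by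
      rw [Complex.sub_im]; ring
    rw [e]
    exact (abs_add_le _ _).trans (add_le_add h0 him)
  have hpi : Real.pi < 4 := Real.pi_lt_four
  have hb := bt_nonneg φ z L q n
  have hn : (0 : ℝ) ≤ n := Nat.cast_nonneg n
  have hl0 := abs_nonneg (Real.log L)
  nlinarith [mul_nonneg hlog0 hn, mul_nonneg hlog0 hb, mul_nonneg hl0 hn, mul_nonneg hl0 hb,
    mul_nonneg hn (by linarith : 0 ≤ 4 - Real.pi), mul_nonneg hb (by linarith : 0 ≤ 4 - Real.pi)]

set_option maxHeartbeats 2000000 in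
/-- One symbol. -/
theorem one_symbol (φ : CT) (L q : ℝ) (hL : 0 < L) (hq : 1 / 2 ≤ q) (hq2 : 2 * q ^ 2 < 1)
    (h : HD (rl φ) L q) (R : ℝ) : ∃ C : ℝ, 0 ≤ C ∧ ∀ z : ℂ, ‖z‖ ≤ R → (∀ t, φ t ≠ z) →
      ∃ (k : ℤ) (g : CT), cexp g = sy φ z k ∧
        ∀ n, Clean (fun t => rl φ t - z) (L * q ^ n) n →
          (Summable fun n : ℕ => ‖ft (n : ℤ) g‖) ∧ (Summable fun n : ℕ => ‖ft (-(n : ℤ)) g‖) ∧
          ‖ps (cp g)‖ + ‖psm (cm g)‖ ≤ C * ((n + 1) * (1 + n + bt φ z L q n)) := by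
  have hq0 : 0 < q := by linarith
  have hs := sqrt2q_lt hq0 hq2
  obtain ⟨κ, -, hκ⟩ := exists_kappa hq0 hq2
  set s := Real.sqrt 2 * q with hsdef
  have hs0 : 0 ≤ s := by positivity
  have hs1 : 0 < 1 - s := by linarith
  set c2 : ℝ := Real.log (1 + ‖φ‖ + |R|) + |Real.log L| + 20 with hc2
  have hlogR : 0 ≤ Real.log (1 + ‖φ‖ + |R|) :=
    Real.log_nonneg (by linarith [norm_nonneg φ, abs_nonneg R])
  have hc20 : 0 ≤ c2 := by
    have := abs_nonneg (Real.log L)
    linarith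
  refine ⟨(c2 + 12) * (3 + 2 * (κ + 2)) + 2 + 24 / (1 - s), by positivity, fun z hz hzφ => ?_⟩
  obtain ⟨k, lam, g, hl, he, h0, hg, hexp⟩ := exists_lift φ z hzφ
  refine ⟨k, g, hexp, fun n hc => ?_⟩
  set b := bt φ z L q n with hb
  have hb0 : 0 ≤ b := bt_nonneg φ z L q n
  have hn0 : (0 : ℝ) ≤ n := Nat.cast_nonneg n
  set w : ℝ → ℂ := fun t => rl φ t - z with hw
  have hwp : Function.Periodic w 1 := fun t => by
    simp only [hw]
    rw [rl_periodic φ t]
  have hr : ∀ n : ℕ, ∀ s t : ℝ, |s - t| ≤ (1 / 2) ^ n → ‖w s - w t‖ ≤ L * q ^ n := by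
    intro n s t hst
    have := h n s t hst
    simpa [hw] using this
  -- the winding number
  obtain ⟨W, hW⟩ : ∃ W : ℝ, W = 2 * Real.pi * |(k : ℝ)| := ⟨_, rfl⟩
  have hW0 : 0 ≤ W := by rw [hW]; positivity
  have hpi : Real.pi < 4 := Real.pi_lt_four
  have hpi0 : 0 < Real.pi := Real.pi_pos
  have hWT : W ≤ 12 * (1 + n + b) := by
    have h1 : lam 1 - lam 0 = 2 * Real.pi * Complex.I * k := by
      have e1 := hg 1
      have e0 := hg 0
      have e2 : ((1 : ℝ) : UnitAddCircle) = ((0 : ℝ) : UnitAddCircle) := by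
        rw [AddCircle.coe_period 1]
        rfl
      rw [e2] at e1
      rw [e1] at e0
      have e3 : lam 1 - 2 * Real.pi * Complex.I * k * ((1 : ℝ) : ℂ) =
          lam 0 - 2 * Real.pi * Complex.I * k * ((0 : ℝ) : ℂ) := e0
      push_cast at e3
      linear_combination e3
    have h2 := lam_im_bound w lam hl he L q hL hq0 hwp hr n hc 1 (by norm_num)
    rw [h1] at h2
    have h3 : (2 * Real.pi * Complex.I * k : ℂ).im = 2 * Real.pi * k := by
      have : (2 * Real.pi * Complex.I * k : ℂ) = ((2 * Real.pi * k : ℝ) : ℂ) * Complex.I := by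
        push_cast
        ring
      rw [this, Complex.im_ofReal_mul, Complex.I_im, mul_one]
    rw [h3, abs_mul, abs_of_pos (by positivity : 0 < 2 * Real.pi)] at h2
    rw [← hW] at h2
    have h4 : ∑ m ∈ Finset.range n, (bad w (L * q ^ m) m : ℝ) = b := rfl
    rw [h4] at h2
    nlinarith
  set T : ℝ := 1 + n + b with hT
  have hT1 : 1 ≤ T := by linarith
  set M : ℝ := (c2 + 12) * T with hM
  have hM0 : 0 ≤ M := by positivity
  have hgM : ∀ t, ‖g t‖ ≤ M := by
    intro t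
    obtain ⟨x, hx, rfl⟩ := exists_coe t
    rw [hg]
    have h1 := norm_lam_le φ z L q hL hq hq2 h n hc lam hl he h0 x hx
    have h2 : Real.log (1 + ‖φ‖ + ‖z‖) ≤ Real.log (1 + ‖φ‖ + |R|) := by
      apply Real.log_le_log (by positivity)
      have := hz.trans (le_abs_self R)
      linarith
    have h3 : ‖lam x‖ ≤ c2 * T := by
      refine h1.trans ?_
      refine mul_le_mul_of_nonneg_right ?_ (by positivity)
      linarith
    have h4 : ‖(2 * Real.pi * Complex.I * k * x : ℂ)‖ ≤ W := by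
      have e : (2 * Real.pi * Complex.I * k * x : ℂ) =
          ((2 * Real.pi * k * x : ℝ) : ℂ) * Complex.I := by
        push_cast
        ring
      rw [e, norm_mul, Complex.norm_I, mul_one, Complex.norm_real, Real.norm_eq_abs, abs_mul,
        abs_mul, abs_of_pos (by positivity : 0 < 2 * Real.pi), ← hW, abs_of_nonneg hx.1]
      exact mul_le_of_le_one_right hW0 hx.2
    refine (norm_sub_le _ _).trans ?_
    rw [hM, add_mul]
    exact add_le_add h3 (h4.trans hWT)
  set j₀ : ℕ := (κ + 2) * (n + 1) with hj₀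
  have hj2 : n + 2 ≤ j₀ := by
    rw [hj₀]
    nlinarith
  have hmod : ∀ j, j₀ ≤ j → ∀ t, ‖(sh (hj j) g - g : CT) t‖ ≤ (2 / q ^ n + W) * q ^ j := by
    intro j hjj t
    obtain ⟨x, -, rfl⟩ := exists_coe t
    rw [sh_hj_apply]
    have h1 := lam_mod w lam hl he L q hL hq0 hq2 hwp hr n hc j (hj2.trans hjj)
      x (x + 1 / (3 * 2 ^ j)) (step_le j x)
    have h2 : rl g (x + 1 / (3 * 2 ^ j)) - rl g x = (lam (x + 1 / (3 * 2 ^ j)) - lam x) -
        2 * Real.pi * Complex.I * k * ((1 / (3 * 2 ^ j) : ℝ) : ℂ) := by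
      show g _ - g _ = _
      rw [hg, hg]
      push_cast
      ring
    rw [h2]
    have h3 : ‖(2 * Real.pi * Complex.I * k * ((1 / (3 * 2 ^ j) : ℝ) : ℂ) : ℂ)‖ ≤ W * q ^ j := by
      have e : (2 * Real.pi * Complex.I * k * ((1 / (3 * 2 ^ j) : ℝ) : ℂ) : ℂ) =
          ((2 * Real.pi * k * (1 / (3 * 2 ^ j)) : ℝ) : ℂ) * Complex.I := by
        push_cast
        ring
      rw [e, norm_mul, Complex.norm_I, mul_one, Complex.norm_real, Real.norm_eq_abs, abs_mul,
        abs_mul, abs_of_pos (by positivity : 0 < 2 * Real.pi), ← hW]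
      refine mul_le_mul_of_nonneg_left ?_ hW0
      rw [abs_of_pos (by positivity)]
      have e1 : (1 : ℝ) / (3 * 2 ^ j) ≤ (1 / 2) ^ j := by
        rw [one_div_pow, div_le_div_iff₀ (by positivity) (by positivity)]
        have : (0 : ℝ) < 2 ^ j := by positivity
        linarith
      exact e1.trans (pow_le_pow_left₀ (by norm_num) hq j)
    refine (norm_sub_le _ _).trans ((add_le_add h1 h3).trans (le_of_eq ?_))
    ring
  obtain ⟨h1, h2, h3⟩ := norm_ps_le g M hgM j₀ (2 / q ^ n + W) q (by positivity) hq0.le hs hmod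
  have hκ' : 2 / q ^ n * s ^ j₀ / (1 - s) ≤ 1 := by
    refine le_trans ?_ (hκ n)
    refine div_le_div_of_nonneg_right ?_ hs1.le
    refine mul_le_mul_of_nonneg_left ?_ (by positivity)
    apply pow_le_pow_of_le_one (by positivity) hs.le
    rw [hj₀]
    nlinarith
  have hκ2 : W * s ^ j₀ / (1 - s) ≤ 12 * T / (1 - s) := by
    refine div_le_div_of_nonneg_right ?_ hs1.le
    have : s ^ j₀ ≤ 1 := pow_le_one₀ hs0 hs.le
    exact (mul_le_of_le_one_right hW0 this).trans hWT
  obtain ⟨S, hS⟩ : ∃ S : ℝ, S = M * (1 + j₀) + 1 + 12 * T / (1 - s) := ⟨_, rfl⟩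
  have hS0 : 0 ≤ S := by
    rw [hS]
    positivity
  have hS1 : ∀ t, ‖ps (cp g) t‖ ≤ S := by
    intro t
    refine (h3 t).trans ?_
    have e : (2 / q ^ n + W) * (Real.sqrt 2 * q) ^ j₀ / (1 - Real.sqrt 2 * q) =
        2 / q ^ n * s ^ j₀ / (1 - s) + W * s ^ j₀ / (1 - s) := by
      rw [← hsdef]
      ring
    rw [e, hS]
    linarith
  have hS2 : ∀ t, ‖psm (cm g) t‖ ≤ M + S := by
    intro t
    have h4 : psm (cm g) t = g t - ps (cp g) t := by
      have h5 := congrArg (fun f : CT => f t) (decomp g h1 h2)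
      simp only [ContinuousMap.add_apply] at h5
      rw [h5]
      ring
    rw [h4]
    exact (norm_sub_le _ _).trans (add_le_add (hgM t) (hS1 t))
  refine ⟨h1, h2, ?_⟩
  have k1 : ‖ps (cp g)‖ ≤ S := (ContinuousMap.norm_le _ hS0).2 hS1
  have k2 : ‖psm (cm g)‖ ≤ M + S := (ContinuousMap.norm_le _ (by positivity)).2 hS2
  refine (add_le_add k1 k2).trans ?_
  have hj1 : (j₀ : ℝ) = (κ + 2) * (n + 1) := by rw [hj₀]; push_cast; ring
  have hκ0 : (0 : ℝ) ≤ κ := Nat.cast_nonneg κ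
  obtain ⟨N, hN⟩ : ∃ N : ℝ, N = (n : ℝ) + 1 := ⟨_, rfl⟩
  have hN1 : 1 ≤ N := by linarith
  obtain ⟨c3, hc3⟩ : ∃ c3 : ℝ, c3 = c2 + 12 := ⟨_, rfl⟩
  have hc30 : 0 ≤ c3 := by linarith
  obtain ⟨r, hr⟩ : ∃ r : ℝ, r = 1 / (1 - s) := ⟨_, rfl⟩
  have hr0 : 0 ≤ r := by rw [hr]; positivity
  have e1 : S + (M + S) = c3 * T * (3 + 2 * ((κ + 2) * N)) + 2 + 24 * T * r := by
    rw [hS, hM, hj1, hN, hc3, hr]
    ring
  have e2 : ((c2 + 12) * (3 + 2 * (κ + 2)) + 2 + 24 / (1 - s)) * ((n + 1) * T) =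
      c3 * T * (3 * N + 2 * ((κ + 2) * N)) + 2 * (N * T) + 24 * (N * T) * r := by
    rw [hN, hc3, hr]
    ring
  rw [e1, e2]
  have hNT : 1 ≤ N * T := one_le_mul_of_one_le_of_one_le hN1 hT1
  have hTN : T ≤ N * T := le_mul_of_one_le_left (by linarith only [hT1]) hN1
  have f1 : c3 * T * (3 + 2 * ((κ + 2) * N)) ≤ c3 * T * (3 * N + 2 * ((κ + 2) * N)) := by
    refine mul_le_mul_of_nonneg_left ?_ (by positivity)
    linarith only [hN1]
  have f2 : 24 * T * r ≤ 24 * (N * T) * r := by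
    refine mul_le_mul_of_nonneg_right ?_ hr0
    linarith only [hTN]
  linarith only [f1, f2, hNT]

lemma sy_eq (φ : CT) (z : ℂ) (k : ℤ) (g : CT) (h : cexp g = sy φ z k) :
    φ - algebraMap ℂ CT z = fourier k * cexp g := by
  rw [h, sy]
  have e : (fourier k : CT) * fourier (-k) = 1 := by
    rw [← fourier_add_eq, add_neg_cancel, fourier_zero_eq]
  calc φ - algebraMap ℂ CT z = (φ - algebraMap ℂ CT z) * (fourier k * fourier (-k)) := by
        rw [e, mul_one]
    _ = _ := by ring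

theorem main : S_FAC := by
  intro a b L q hL hq hq2 ha hb R
  have hq0 : 0 < q := by linarith
  have hq1 : q < 1 := by nlinarith
  obtain ⟨Ca, hCa, hA⟩ := one_symbol a L q hL hq hq2 ha R
  obtain ⟨Cb, hCb, hB⟩ := one_symbol b L q hL hq hq2 hb R
  refine ⟨Ca + Cb + |Real.log L| + 1, by positivity, fun z hz hza hzb => ?_⟩
  obtain ⟨ka, ga, ea, ha'⟩ := hA z hz hza
  obtain ⟨kb, gb, eb, hb'⟩ := hB z hz hzb
  obtain ⟨na, cla, leva⟩ := exists_level a L q hL hq0 hq1 z hza
  obtain ⟨nb, clb, levb⟩ := exists_level b L q hL hq0 hq1 z hzb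
  obtain ⟨sa1, sa2, ba⟩ := ha' na cla
  obtain ⟨sb1, sb2, bb⟩ := hb' nb clb
  have sa3 : Summable fun n => ‖cp ga n‖ := sa1
  have sb3 : Summable fun n => ‖cp gb n‖ := sb1
  have sca := summable_cm ga sa2
  have scb := summable_cm gb sb2
  have da := decomp ga sa1 sa2
  have db := decomp gb sb1 sb2
  have e1 := sy_eq a z ka ga ea
  have e2 := sy_eq b z kb gb eb
  refine ⟨ka - kb, fun n => cp ga n - cp gb n, fun n => cm ga n - cm gb n,
    fourier (-kb) * cexp (-gb), summable_sub' _ _ sa3 sb3, summable_sub' _ _ sca scb, ?_, ?_, ?_⟩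
  · rw [← ps_sub _ _ sa3 sb3, ← psm_sub _ _ sca scb, e1, e2]
    have e3 : (fourier ka : CT) = fourier kb * fourier (ka - kb) := by
      rw [← fourier_add_eq]
      congr 1
      ring
    have e4 : cexp ga = cexp gb * (cexp (ps (cp ga) - ps (cp gb)) *
        cexp (psm (cm ga) - psm (cm gb))) := by
      rw [cexp_mul, cexp_mul]
      congr 1
      have : gb + (ps (cp ga) - ps (cp gb) + (psm (cm ga) - psm (cm gb))) =
          gb + ((ps (cp ga) + psm (cm ga)) - (ps (cp gb) + psm (cm gb))) := by abel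
      rw [this, ← da, ← db]
      abel
    rw [e3, e4]
    ring
  · rw [e2]
    have e3 : (fourier kb : CT) * fourier (-kb) = 1 := by
      rw [← fourier_add_eq, add_neg_cancel, fourier_zero_eq]
    have e4 : cexp gb * cexp (-gb) = 1 := by
      rw [cexp_mul, add_neg_cancel, cexp_zero]
    calc fourier kb * cexp gb * (fourier (-kb) * cexp (-gb)) =
        (fourier kb * fourier (-kb)) * (cexp gb * cexp (-gb)) := by ring
      _ = 1 := by rw [e3, e4, mul_one]
  · -- the bound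
    obtain ⟨Xa, hXa⟩ : ∃ X : ℝ, X = ((na : ℝ) + 1) * (1 + na + bt a z L q na) := ⟨_, rfl⟩
    obtain ⟨Xb, hXb⟩ : ∃ X : ℝ, X = ((nb : ℝ) + 1) * (1 + nb + bt b z L q nb) := ⟨_, rfl⟩
    rw [← hXa] at ba leva
    rw [← hXb] at bb levb
    have hba := bt_nonneg a z L q na
    have hbb := bt_nonneg b z L q nb
    have hna : (0 : ℝ) ≤ na := Nat.cast_nonneg _
    have hnb : (0 : ℝ) ≤ nb := Nat.cast_nonneg _
    have hXa1 : 1 ≤ Xa := by rw [hXa]; nlinarith
    have hXb1 : 1 ≤ Xb := by rw [hXb]; nlinarith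
    have hXbn : (nb : ℝ) ≤ Xb := by rw [hXb]; nlinarith
    have hwp : Function.Periodic (fun t => rl b t - z) 1 := fun t => by
      simp only
      rw [rl_periodic b t]
    have hr : ∀ s t : ℝ, |s - t| ≤ (1 / 2) ^ nb →
        ‖(rl b s - z) - (rl b t - z)‖ ≤ L * q ^ nb := by
      intro s t hst
      have := hb nb s t hst
      simpa using this
    have hLq : 0 < L * q ^ nb := by positivity
    have hw : ‖(fourier (-kb) * cexp (-gb) : CT)‖ ≤ (L * q ^ nb)⁻¹ := by
      refine (ContinuousMap.norm_le _ (by positivity)).2 fun t => ?_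
      obtain ⟨x, -, rfl⟩ := exists_coe t
      have hlow := clean_lower (fun t => rl b t - z) (L * q ^ nb) nb hwp hr clb x
      rw [ContinuousMap.mul_apply, norm_mul, norm_fourier_apply, one_mul, cexp_apply,
        ContinuousMap.neg_apply, Complex.exp_neg, norm_inv]
      have h5 := congrArg (fun f : CT => ‖f (x : UnitAddCircle)‖) e2
      simp only [ContinuousMap.mul_apply, norm_mul, norm_fourier_apply, one_mul, cexp_apply] at h5
      rw [← h5]
      exact inv_anti₀ hLq hlow.le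
    have hp : Real.posLog ‖(fourier (-kb) * cexp (-gb) : CT)‖ ≤ |Real.log L| + nb := by
      refine (Real.posLog_le_posLog (norm_nonneg _) hw).trans ?_
      rw [Real.posLog, Real.log_inv, Real.log_mul hL.ne' (by positivity), Real.log_pow]
      have h2 := log_q_ge hq
      have h3 := neg_abs_le (Real.log L)
      refine max_le (by positivity) ?_
      nlinarith
    have k1 : ‖ps (fun n => cp ga n - cp gb n)‖ ≤ ‖ps (cp ga)‖ + ‖ps (cp gb)‖ := by
      rw [← ps_sub _ _ sa3 sb3]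
      exact norm_sub_le _ _
    have k2 : ‖psm (fun n => cm ga n - cm gb n)‖ ≤ ‖psm (cm ga)‖ + ‖psm (cm gb)‖ := by
      rw [← psm_sub _ _ sca scb]
      exact norm_sub_le _ _
    have hl0 := abs_nonneg (Real.log L)
    have hfin : ‖ps (fun n => cp ga n - cp gb n)‖ + ‖psm (fun n => cm ga n - cm gb n)‖ +
        Real.posLog ‖(fourier (-kb) * cexp (-gb) : CT)‖ ≤
        (Ca + Cb + |Real.log L| + 1) * (Xa + Xb) := by
      nlinarith [mul_nonneg hCa (by linarith : 0 ≤ Xb), mul_nonneg hCb (by linarith : 0 ≤ Xa),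
        mul_nonneg hl0 (by linarith : 0 ≤ Xa), mul_nonneg hl0 (by linarith : 0 ≤ Xb - 1)]
    refine (ENNReal.ofReal_le_ofReal hfin).trans ?_
    rw [ENNReal.ofReal_mul (by positivity),
      ENNReal.ofReal_add (p := Xa) (q := Xb) (by linarith) (by linarith)]
    exact mul_le_mul' le_rfl (add_le_add leva levb)

end Pool.Agent.R276.SI.Fac
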