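import Pool.Agent.R276.SI.Stm
import Pool.Agent.Y283.TO.Main
import Pool.Agent.W610.HY.Reduct

/-!
# Project SI, assembly
-/

set_option autoImplicit false

noncomputable section

namespace Pool.Agent.R276.SI.Fin

open MeasureTheory AddCircle Set Filter Topology Metric
open scoped ENNReal NNReal
open Pool.Agent.Y283.TO

theorem cexp_neg_mul (f : CT) : cexp f * cexp (-f) = 1 := by
  ext t
  simp [cexp_apply, ← Complex.exp_add]

theorem psm_neg (d : ℕ → ℂ) (hd : Summable fun n => ‖d n‖) : -psm d = psm (fun n => -d n) := by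
  rw [psm, psm, ← ps_neg d hd]
  rfl

theorem norm_cexp_le (f : CT) : ‖cexp f‖ ≤ Real.exp ‖f‖ := by
  refine (ContinuousMap.norm_le _ (Real.exp_pos _).le).mpr fun t => ?_
  rw [cexp_apply, Complex.norm_exp]
  apply Real.exp_le_exp.mpr
  exact ((Complex.abs_re_le_norm _).trans (f.norm_coe_le_norm t)).trans' (le_abs_self _)

/-- the inverse in a general ring -/
theorem ring_inv {𝒜 : Type} [Ring 𝒜] (P U U' V V' B W : 𝒜) (hP : P * P = P)
    (hU : P * U * P = U * P) (hU' : P * U' * P = U' * P) (hV : P * V * P = P * V)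
    (hV' : P * V' * P = P * V') (uu : U * U' = 1) (uu' : U' * U = 1) (vv : V * V' = 1)
    (vv' : V' * V = 1) (bw : B * W = 1) (wb : W * B = 1) (uv : V * U = U * V) :
    ((U' * P + V * (1 - P)) * V' * W) * (B * (U * V * P + (1 - P))) = 1 ∧
    (B * (U * V * P + (1 - P))) * ((U' * P + V * (1 - P)) * V' * W) = 1 := by
  have q1 : P * V' * (1 - P) = 0 := by rw [mul_sub, mul_one, hV', sub_self]
  have q2 : (1 - P) * U * P = 0 := by rw [sub_mul, sub_mul, one_mul, hU, sub_self]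
  have q3 : (1 - P) * V' * (1 - P) = V' * (1 - P) := by
    have e : (1 - P) * V' * (1 - P) = V' * (1 - P) - P * V' * (1 - P) := by noncomm_ring
    rw [e, q1, sub_zero]
  have r1 : P * V * (1 - P) = 0 := by rw [mul_sub, mul_one, hV, sub_self]
  have r2 : (1 - P) * U' * P = 0 := by rw [sub_mul, sub_mul, one_mul, hU', sub_self]
  have r3 : (1 - P) * V * (1 - P) = V * (1 - P) := by
    have e : (1 - P) * V * (1 - P) = V * (1 - P) - P * V * (1 - P) := by noncomm_ring
    rw [e, r1, sub_zero]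
  constructor
  · calc ((U' * P + V * (1 - P)) * V' * W) * (B * (U * V * P + (1 - P)))
        = (U' * P + V * (1 - P)) * (V' * (W * B) * (U * V * P + (1 - P))) := by
          simp only [mul_assoc]
      _ = (U' * P + V * (1 - P)) * ((V' * V) * U * P + V' * (1 - P)) := by
          rw [wb, mul_one, mul_add, ← uv]
          simp only [mul_assoc]
      _ = (U' * P + V * (1 - P)) * (U * P + V' * (1 - P)) := by rw [vv', one_mul]
      _ = U' * (P * U * P) + U' * (P * V' * (1 - P)) + V * ((1 - P) * U * P) +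
          V * ((1 - P) * V' * (1 - P)) := by noncomm_ring
      _ = 1 := by
          rw [hU, q1, q2, q3, ← mul_assoc, uu', ← mul_assoc, vv]
          noncomm_ring
  · calc (B * (U * V * P + (1 - P))) * ((U' * P + V * (1 - P)) * V' * W)
        = B * (U * V * (P * U' * P) + U * V * P * V * (1 - P) + (1 - P) * U' * P +
          (1 - P) * V * (1 - P)) * V' * W := by noncomm_ring
      _ = B * (U * V * (U' * P) + U * V * (P * V * (1 - P)) + 0 + V * (1 - P)) * V' * W := by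
          rw [hU', r2, r3]
          simp only [mul_assoc]
      _ = B * (V * (U * U') * P + V * (1 - P)) * V' * W := by
          rw [r1, mul_zero, add_zero, add_zero, ← uv]
          simp only [mul_assoc]
      _ = B * (V * V') * W := by
          rw [uu, mul_one]
          noncomm_ring
      _ = 1 := by rw [vv, mul_one, bw]

section

variable {X : Type} [NormedAddCommGroup X] [NormedSpace ℂ X]
variable {e : ℤ → X} {ε₀ : X →L[ℂ] ℂ} {M : CT → (X →L[ℂ] X)} {P : X →L[ℂ] X}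

theorem M_sub_z (h : SIO e ε₀ M P) (a b : CT) (z : ℂ) :
    M (a - algebraMap ℂ CT z) * P + M (b - algebraMap ℂ CT z) * (1 - P) =
      (M a * P + M b * (1 - P)) - algebraMap ℂ (X →L[ℂ] X) z := by
  have e1 : ∀ φ : CT, M (φ - algebraMap ℂ CT z) = M φ - algebraMap ℂ (X →L[ℂ] X) z := by
    intro φ
    have e1 : φ - algebraMap ℂ CT z = φ + (-z) • (1 : CT) := by
      ext t
      simp [sub_eq_add_neg]
    rw [e1, h.add, h.smul, h.one, Algebra.algebraMap_eq_smul_one, neg_smul, sub_eq_add_neg]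
  rw [e1, e1]
  noncomm_ring

theorem eig (hALG : S_ALG) (h : SIO e ε₀ M P) (a b : CT) (z : ℂ) (k : ℤ) (c d : ℕ → ℂ)
    (hc : Summable fun n => ‖c n‖) (hd : Summable fun n => ‖d n‖) (hk : k < 0)
    (hf : a - algebraMap ℂ CT z =
      (b - algebraMap ℂ CT z) * fourier k * cexp (ps c) * cexp (psm d)) :
    ∃ x : X, x ≠ 0 ∧ (M a * P + M b * (1 - P)) x = z • x := by
  obtain ⟨hPP, h2, h3, h4⟩ := hALG X e ε₀ M P h
  obtain ⟨x1, hx1d⟩ : ∃ x1, x1 = M (cexp (-ps c)) (e 0) := ⟨_, rfl⟩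
  obtain ⟨x2, hx2d⟩ : ∃ x2, x2 = M (fourier k * cexp (psm d)) (e 0) := ⟨_, rfl⟩
  have hP0 : P (e 0) = e 0 := by rw [h.proj]; simp
  have hx1 : P x1 = x1 := by
    have g1 := (h2 (fun n => -c n) (by simpa using hc)).1
    rw [← ps_neg c hc] at g1
    have g2 := congrArg (fun S : X →L[ℂ] X => S (e 0)) g1
    simp only [mul_apply_eq_comp, hP0] at g2
    rw [hx1d]
    exact g2
  have hx2 : P x2 = 0 := by rw [hx2d]; exact h4 k d hk hd
  refine ⟨x1 - x2, ?_, ?_⟩
  · intro h0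
    have g1 : P (x1 - x2) = 0 := by rw [h0, map_zero]
    rw [map_sub, hx1, hx2, sub_zero] at g1
    have g2 : M (cexp (ps c)) x1 = e 0 := by
      rw [hx1d]
      change (M (cexp (ps c)) * M (cexp (-ps c))) (e 0) = e 0
      rw [← h.mul, cexp_neg_mul, h.one]
      rfl
    rw [g1, map_zero] at g2
    have g3 := h.coord 0
    rw [← g2, map_zero] at g3
    simp at g3
  · have g1 := congrArg (fun S : X →L[ℂ] X => S (x1 - x2)) (M_sub_z h a b z)
    have g2 : (M (a - algebraMap ℂ CT z) * P + M (b - algebraMap ℂ CT z) * (1 - P)) (x1 - x2) =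
        M (a - algebraMap ℂ CT z) x1 - M (b - algebraMap ℂ CT z) x2 := by
      have g3 : P (x1 - x2) = x1 := by rw [map_sub, hx1, hx2, sub_zero]
      have g4 : (1 - P : X →L[ℂ] X) (x1 - x2) = -x2 := by
        change x1 - x2 - P (x1 - x2) = -x2
        rw [g3]
        abel
      change M (a - algebraMap ℂ CT z) (P (x1 - x2)) +
        M (b - algebraMap ℂ CT z) ((1 - P : X →L[ℂ] X) (x1 - x2)) = _
      rw [g3, g4, map_neg]
      abel
    have g5 : M (a - algebraMap ℂ CT z) x1 = M (b - algebraMap ℂ CT z) x2 := by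
      rw [hx1d, hx2d]
      change (M (a - algebraMap ℂ CT z) * M (cexp (-ps c))) (e 0) =
        (M (b - algebraMap ℂ CT z) * M (fourier k * cexp (psm d))) (e 0)
      rw [← h.mul, ← h.mul, hf]
      congr 2
      calc (b - algebraMap ℂ CT z) * fourier k * cexp (ps c) * cexp (psm d) * cexp (-ps c)
          = (b - algebraMap ℂ CT z) * (fourier k * cexp (psm d)) *
            (cexp (ps c) * cexp (-ps c)) := by ring
        _ = _ := by rw [cexp_neg_mul, mul_one]
    rw [g5, sub_self] at g2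
    simp only [g2] at g1
    have g6 : (M a * P + M b * (1 - P)) (x1 - x2) - z • (x1 - x2) = 0 := by
      rw [g1]
      simp [Algebra.algebraMap_eq_smul_one]
    exact sub_eq_zero.1 g6

theorem coeig (hALG : S_ALG) (h : SIO e ε₀ M P) (a b : CT) (z : ℂ) (k : ℤ) (c d : ℕ → ℂ) (w : CT)
    (hc : Summable fun n => ‖c n‖) (hd : Summable fun n => ‖d n‖) (hk : 0 < k)
    (hf : a - algebraMap ℂ CT z =
      (b - algebraMap ℂ CT z) * fourier k * cexp (ps c) * cexp (psm d))
    (hw : (b - algebraMap ℂ CT z) * w = 1) :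
    ∃ y : X →L[ℂ] ℂ, y ≠ 0 ∧ y.comp (M a * P + M b * (1 - P)) = z • y := by
  obtain ⟨hPP, h2, h3, h4⟩ := hALG X e ε₀ M P h
  obtain ⟨y, hy⟩ : ∃ y : X →L[ℂ] ℂ, y = ε₀.comp (M (cexp (-psm d) * w)) := ⟨_, rfl⟩
  have hyM : ∀ (f : CT) (x : X), y (M f x) = ε₀ (M (cexp (-psm d) * w * f) x) := by
    intro f x
    rw [hy, h.mul (cexp (-psm d) * w) f]
    rfl
  refine ⟨y, ?_, ?_⟩
  · intro h0
    have g1 := hyM ((b - algebraMap ℂ CT z) * cexp (psm d)) (e 0)
    have g2 : cexp (-psm d) * w * ((b - algebraMap ℂ CT z) * cexp (psm d)) = 1 := by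
      calc cexp (-psm d) * w * ((b - algebraMap ℂ CT z) * cexp (psm d))
          = (cexp (psm d) * cexp (-psm d)) * ((b - algebraMap ℂ CT z) * w) := by ring
        _ = 1 := by rw [cexp_neg_mul, hw, one_mul]
    rw [g2, h.one, h0] at g1
    have g3 := h.coord 0
    change (0:ℂ) = ε₀ (e 0) at g1
    rw [← g1] at g3
    simp at g3
  · have g1 : y.comp (M (a - algebraMap ℂ CT z) * P + M (b - algebraMap ℂ CT z) * (1 - P)) = 0 := by
      refine ContinuousLinearMap.ext_on h.dense ?_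
      rintro _ ⟨n, rfl⟩
      change y (M (a - algebraMap ℂ CT z) (P (e n)) +
        M (b - algebraMap ℂ CT z) (e n - P (e n))) = 0
      rw [h.proj]
      by_cases hn : 0 ≤ n
      · rw [if_pos hn, sub_self, map_zero, add_zero, hyM, h3]
        have g2 : cexp (-psm d) * w * (a - algebraMap ℂ CT z) = fourier k * cexp (ps c) := by
          rw [hf]
          calc cexp (-psm d) * w * ((b - algebraMap ℂ CT z) * fourier k * cexp (ps c) *
                cexp (psm d))
              = (cexp (psm d) * cexp (-psm d)) * ((b - algebraMap ℂ CT z) * w) *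
                (fourier k * cexp (ps c)) := by ring
            _ = _ := by rw [cexp_neg_mul, hw, one_mul, one_mul]
        rw [g2, ft_fourier_mul]
        obtain ⟨m, hm⟩ : ∃ m : ℕ, -n - k = -((m : ℕ) : ℤ) := ⟨(n + k).toNat, by omega⟩
        rw [hm, ft_neg_cexp_ps c hc, if_neg (by omega)]
      · rw [if_neg hn, map_zero, zero_add, sub_zero, hyM, h3]
        have g2 : cexp (-psm d) * w * (b - algebraMap ℂ CT z) = cexp (-psm d) := by
          calc cexp (-psm d) * w * (b - algebraMap ℂ CT z)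
              = cexp (-psm d) * ((b - algebraMap ℂ CT z) * w) := by ring
            _ = _ := by rw [hw, mul_one]
        rw [g2, psm_neg d hd]
        obtain ⟨m, hm⟩ : ∃ m : ℕ, -n = ((m : ℕ) : ℤ) := ⟨(-n).toNat, by omega⟩
        rw [hm, ft_cexp_psm _ (by simpa using hd), if_neg (by omega)]
    rw [M_sub_z h] at g1
    ext x
    have g2 := congrArg (fun S : X →L[ℂ] ℂ => S x) g1
    have g3 : y ((M a * P + M b * (1 - P)) x) - z * y x = 0 := by
      have g4 : y ((M a * P + M b * (1 - P)) x - z • x) = 0 := by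
        have e1 : ((M a * P + M b * (1 - P)) - algebraMap ℂ (X →L[ℂ] X) z) x =
            (M a * P + M b * (1 - P)) x - z • x := by
          simp [Algebra.algebraMap_eq_smul_one]
        rw [← e1]
        exact g2
      rw [map_sub, map_smul, smul_eq_mul] at g4
      exact g4
    change y ((M a * P + M b * (1 - P)) x) = z * y x
    exact sub_eq_zero.1 g3

theorem inv (hALG : S_ALG) (h : SIO e ε₀ M P) (K : ℝ) (hK : 0 ≤ K) (hbd : ∀ f, ‖M f‖ ≤ K * ‖f‖)
    (a b : CT) (z : ℂ) (c d : ℕ → ℂ) (w : CT)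
    (hc : Summable fun n => ‖c n‖) (hd : Summable fun n => ‖d n‖)
    (hf : a - algebraMap ℂ CT z =
      (b - algebraMap ℂ CT z) * fourier 0 * cexp (ps c) * cexp (psm d))
    (hw : (b - algebraMap ℂ CT z) * w = 1) :
    z ∈ resolventSet ℂ (M a * P + M b * (1 - P) : X →L[ℂ] X) ∧
      ‖resolvent (M a * P + M b * (1 - P) : X →L[ℂ] X) z‖ ≤
        (K ^ 3 * (‖P‖ + ‖(1 - P : X →L[ℂ] X)‖)) *
          (Real.exp (2 * (‖ps c‖ + ‖psm d‖)) * ‖w‖) := by
  obtain ⟨hPP, h2, h3, h4⟩ := hALG X e ε₀ M P h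
  obtain ⟨U, hU⟩ : ∃ U, U = M (cexp (ps c)) := ⟨_, rfl⟩
  obtain ⟨U', hU'⟩ : ∃ U', U' = M (cexp (-ps c)) := ⟨_, rfl⟩
  obtain ⟨V, hV⟩ : ∃ V, V = M (cexp (psm d)) := ⟨_, rfl⟩
  obtain ⟨V', hV'⟩ : ∃ V', V' = M (cexp (-psm d)) := ⟨_, rfl⟩
  obtain ⟨B, hB⟩ : ∃ B, B = M (b - algebraMap ℂ CT z) := ⟨_, rfl⟩
  obtain ⟨W, hW⟩ : ∃ W, W = M w := ⟨_, rfl⟩
  have k1 := (h2 c hc).1
  have k2 := (h2 (fun n => -c n) (by simpa using hc)).1
  have k3 := (h2 d hd).2
  have k4 := (h2 (fun n => -d n) (by simpa using hd)).2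
  rw [← ps_neg c hc] at k2
  rw [← psm_neg d hd] at k4
  rw [← hU] at k1
  rw [← hU'] at k2
  rw [← hV] at k3
  rw [← hV'] at k4
  obtain ⟨r1, r2⟩ := ring_inv P U U' V V' B W hPP k1 k2 k3 k4
    (by rw [hU, hU', ← h.mul, cexp_neg_mul, h.one])
    (by rw [hU, hU', ← h.mul, mul_comm, cexp_neg_mul, h.one])
    (by rw [hV, hV', ← h.mul, cexp_neg_mul, h.one])
    (by rw [hV, hV', ← h.mul, mul_comm, cexp_neg_mul, h.one])
    (by rw [hB, hW, ← h.mul, hw, h.one])
    (by rw [hB, hW, ← h.mul, mul_comm, hw, h.one])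
    (by rw [hU, hV, ← h.mul, ← h.mul, mul_comm])
  have hA : B * (U * V * P + (1 - P)) =
      (M a * P + M b * (1 - P)) - algebraMap ℂ (X →L[ℂ] X) z := by
    rw [← M_sub_z h, hf, hU, hV, hB, ← h.mul, mul_add, ← mul_assoc, ← h.mul, fourier_zero_eq,
      mul_one, mul_assoc (b - algebraMap ℂ CT z)]
  rw [hA] at r1 r2
  obtain ⟨J, hJ⟩ : ∃ J, J = (U' * P + V * (1 - P)) * V' * W := ⟨_, rfl⟩
  rw [← hJ] at r1 r2
  obtain ⟨A, hAd⟩ : ∃ A, A = (M a * P + M b * (1 - P) : X →L[ℂ] X) := ⟨_, rfl⟩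
  rw [← hAd] at r1 r2 ⊢
  obtain ⟨u, hu⟩ : ∃ u : (X →L[ℂ] X)ˣ, u = ⟨algebraMap ℂ (X →L[ℂ] X) z - A, -J,
      by rw [mul_neg, ← neg_mul, neg_sub, r2], by rw [neg_mul, ← mul_neg, neg_sub, r1]⟩ := ⟨_, rfl⟩
  have hu1 : (u : X →L[ℂ] X) = algebraMap ℂ (X →L[ℂ] X) z - A := by rw [hu]
  have hu2 : ((u⁻¹ : (X →L[ℂ] X)ˣ) : X →L[ℂ] X) = -J := by
    rw [hu]; rfl
  refine ⟨⟨u, hu1⟩, ?_⟩
  rw [resolvent, ← hu1, Ring.inverse_unit, hu2, norm_neg]
  have n1 : ‖U'‖ ≤ K * Real.exp (‖ps c‖ + ‖psm d‖) := by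
    rw [hU']
    refine (hbd _).trans (mul_le_mul_of_nonneg_left ((norm_cexp_le _).trans ?_) hK)
    rw [norm_neg]
    exact Real.exp_le_exp.2 (le_add_of_nonneg_right (norm_nonneg _))
  have n2 : ‖V‖ ≤ K * Real.exp (‖ps c‖ + ‖psm d‖) := by
    rw [hV]
    refine (hbd _).trans (mul_le_mul_of_nonneg_left ((norm_cexp_le _).trans ?_) hK)
    exact Real.exp_le_exp.2 (le_add_of_nonneg_left (norm_nonneg _))
  have n3 : ‖V'‖ ≤ K * Real.exp (‖ps c‖ + ‖psm d‖) := by
    rw [hV']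
    refine (hbd _).trans (mul_le_mul_of_nonneg_left ((norm_cexp_le _).trans ?_) hK)
    rw [norm_neg]
    exact Real.exp_le_exp.2 (le_add_of_nonneg_left (norm_nonneg _))
  have n4 : ‖W‖ ≤ K * ‖w‖ := by
    rw [hW]
    exact hbd _
  have n5 : ‖U' * P + V * (1 - P)‖ ≤
      K * Real.exp (‖ps c‖ + ‖psm d‖) * (‖P‖ + ‖(1 - P : X →L[ℂ] X)‖) := by
    refine (norm_add_le _ _).trans ?_
    rw [mul_add]
    refine add_le_add ((norm_mul_le _ _).trans ?_) ((norm_mul_le _ _).trans ?_)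
    · exact mul_le_mul_of_nonneg_right n1 (norm_nonneg _)
    · exact mul_le_mul_of_nonneg_right n2 (norm_nonneg _)
  have n6 : ‖J‖ ≤ (K * Real.exp (‖ps c‖ + ‖psm d‖) * (‖P‖ + ‖(1 - P : X →L[ℂ] X)‖)) *
      (K * Real.exp (‖ps c‖ + ‖psm d‖)) * (K * ‖w‖) := by
    rw [hJ]
    have hE : 0 ≤ K * Real.exp (‖ps c‖ + ‖psm d‖) := by positivity
    refine (norm_mul_le _ _).trans (mul_le_mul ((norm_mul_le _ _).trans
      (mul_le_mul n5 n3 (norm_nonneg _) (by positivity))) n4 (norm_nonneg _) (by positivity))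
  refine n6.trans (le_of_eq ?_)
  generalize ‖ps c‖ + ‖psm d‖ = s
  rw [two_mul s, Real.exp_add s s]
  ring

end

theorem main (hALG : S_ALG) (hESS : S_ESS) (hFAC : S_FAC)
    {X : Type} [NormedAddCommGroup X] [NormedSpace ℂ X] [CompleteSpace X]
    {e : ℤ → X} {ε₀ : X →L[ℂ] ℂ} {M : CT → (X →L[ℂ] X)} {P : X →L[ℂ] X} (h : SIO e ε₀ M P)
    (a b : CT) (L q : ℝ) (hL : 0 < L) (hq : 1 / 2 ≤ q) (hq2 : 2 * q ^ 2 < 1)
    (ha : HD (rl a) L q) (hb : HD (rl b) L q) :
    (∃ c : ℂ, (M a * P + M b * (1 - P) : X →L[ℂ] X) = c • 1) ∨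
    HasHyp (M a * P + M b * (1 - P) : X →L[ℂ] X) := by
  have hq0 : 0 < q := by linarith
  by_cases hT : ∃ c : ℂ, (M a * P + M b * (1 - P) : X →L[ℂ] X) = c • 1
  · exact Or.inl hT
  right
  by_contra hcon
  push Not at hT
  obtain ⟨K, hK, hbd⟩ := h.bound
  obtain ⟨R, hR⟩ : ∃ R : ℝ, R = ‖a‖ + ‖b‖ + 1 := ⟨_, rfl⟩
  obtain ⟨C, hC, hfac⟩ := hFAC a b L q hL hq hq2 ha hb R
  obtain ⟨D, hD⟩ : ∃ D : ℝ, D = Real.posLog (K ^ 3 * (‖P‖ + ‖(1 - P : X →L[ℂ] X)‖)) := ⟨_, rfl⟩
  have hD0 : 0 ≤ D := hD ▸ Real.posLog_nonneg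
  obtain ⟨A, hA⟩ : ∃ A, A = (M a * P + M b * (1 - P) : X →L[ℂ] X) := ⟨_, rfl⟩
  have key : ∀ z : ℂ, ‖z‖ ≤ R → (∀ t, a t ≠ z) → (∀ t, b t ≠ z) → z ∈ resolventSet ℂ A ∧
      ENNReal.ofReal (Real.posLog ‖resolvent A z‖) ≤
        ENNReal.ofReal D + 2 * (ENNReal.ofReal C * (HH a L q z + HH b L q z)) := by
    intro z hzR hza hzb
    obtain ⟨k, c, d, w, hc, hd, h1, h2, h3⟩ := hfac z hzR hza hzb
    rcases lt_trichotomy k 0 with hk | hk | hk
    · exfalso
      obtain ⟨x, hx, hxe⟩ := eig hALG h a b z k c d hc hd hk h1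
      exact hcon (hyp_of_eig _ hT z x hx hxe)
    · rw [hk] at h1
      obtain ⟨g1, g2⟩ := inv hALG h K hK hbd a b z c d w hc hd h1 h2
      rw [← hA] at g1 g2
      refine ⟨g1, ?_⟩
      have hs : 0 ≤ ‖ps c‖ + ‖psm d‖ := by positivity
      have g3 : Real.posLog ‖resolvent A z‖ ≤
          D + 2 * (‖ps c‖ + ‖psm d‖ + Real.posLog ‖w‖) := by
        refine (Real.posLog_le_posLog (norm_nonneg _) g2).trans ?_
        refine Real.posLog_mul.trans ?_
        rw [← hD]
        refine add_le_add le_rfl (Real.posLog_mul.trans ?_)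
        have g4 : Real.posLog (Real.exp (2 * (‖ps c‖ + ‖psm d‖))) =
            2 * (‖ps c‖ + ‖psm d‖) := by
          rw [Real.posLog, Real.log_exp]
          exact max_eq_right (by positivity)
        rw [g4]
        have g5 : 0 ≤ Real.posLog ‖w‖ := Real.posLog_nonneg
        linarith
      refine (ENNReal.ofReal_le_ofReal g3).trans ?_
      have g6 : 0 ≤ ‖ps c‖ + ‖psm d‖ + Real.posLog ‖w‖ := by
        have g5 : 0 ≤ Real.posLog ‖w‖ := Real.posLog_nonneg
        positivity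
      rw [ENNReal.ofReal_add hD0 (by positivity), ENNReal.ofReal_mul (by norm_num)]
      refine add_le_add le_rfl ?_
      rw [ENNReal.ofReal_ofNat]
      exact mul_le_mul' le_rfl h3
    · exfalso
      obtain ⟨y, hy, hye⟩ := coeig hALG h a b z k c d w hc hd hk h1 h2
      exact hcon (hyp_of_coeig _ hT z y hy hye)
  have hvola := volume_range a L q hL hq0 hq2 ha
  have hvolb := volume_range b L q hL hq0 hq2 hb
  have hvol : volume (range a ∪ range b) = 0 := measure_union_null hvola hvolb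
  have hsr : spectrum ℂ A ∩ ball 0 R ⊆ range a ∪ range b := by
    rintro z ⟨hz, hzR⟩
    by_contra hc
    rw [mem_union, not_or] at hc
    exact hz (key z (mem_ball_zero_iff.1 hzR).le (fun t ht => hc.1 ⟨t, ht⟩)
      (fun t ht => hc.2 ⟨t, ht⟩)).1
  have hsa : ∀ t, a t ∈ spectrum ℂ A ∩ ball 0 R := by
    intro t
    refine ⟨fun hz => ?_, ?_⟩
    · rw [hA] at hz
      exact (hESS X e ε₀ M P h a b (a t) hz).1 t rfl
    · rw [mem_ball_zero_iff, hR]
      have := a.norm_coe_le_norm t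
      have := norm_nonneg b
      linarith
  have hsb : ∀ t, b t ∈ spectrum ℂ A ∩ ball 0 R := by
    intro t
    refine ⟨fun hz => ?_, ?_⟩
    · rw [hA] at hz
      exact (hESS X e ε₀ M P h a b (b t) hz).2 t rfl
    · rw [mem_ball_zero_iff, hR]
      have := b.norm_coe_le_norm t
      have := norm_nonneg a
      linarith
  have hnt : (spectrum ℂ A ∩ ball 0 R).Nontrivial := by
    by_contra hn
    rw [not_nontrivial_iff] at hn
    have e1 : a = (a 0) • (1 : CT) := by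
      ext t
      simpa using hn (hsa t) (hsa 0)
    have e2 : b = (a 0) • (1 : CT) := by
      ext t
      simpa using hn (hsb t) (hsa 0)
    apply hT (a 0)
    have e3 : M a = (a 0) • (1 : X →L[ℂ] X) := by
      conv_lhs => rw [e1]
      rw [h.smul, h.one]
    have e4 : M b = (a 0) • (1 : X →L[ℂ] X) := by
      conv_lhs => rw [e2]
      rw [h.smul, h.one]
    rw [e3, e4, smul_mul_assoc, smul_mul_assoc, one_mul, one_mul, ← smul_add, add_sub_cancel]
  apply hcon
  rw [← hA]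
  refine Pool.Agent.W610.HY.Cor.glob Pool.Agent.W610.HY.Reduct.loc
    Pool.Agent.W19.HY.RES.main Pool.Agent.W610.HY.Fin.hMEAS A (ball 0 R) isOpen_ball hnt
    (measure_mono_null hsr hvol) ?_
  have hmeas : StronglyMeasurable fun z : ℂ => resolvent A z :=
    Pool.Agent.W610.HY.Fin.hMEAS (X →L[ℂ] X) A
  refine ⟨(Real.continuous_posLog.comp_stronglyMeasurable hmeas.norm).aestronglyMeasurable, ?_⟩
  rw [hasFiniteIntegral_iff_ofReal (ae_of_all _ fun z => Real.posLog_nonneg)]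
  have h1 : ∀ᵐ z ∂((volume : Measure ℂ).restrict (ball 0 R)),
      ENNReal.ofReal (Real.posLog ‖resolvent A z‖) ≤
        ENNReal.ofReal D + 2 * (ENNReal.ofReal C * (HH a L q z + HH b L q z)) := by
    have h2 : ∀ᵐ z ∂((volume : Measure ℂ).restrict (ball 0 R)), z ∉ range a ∪ range b := by
      rw [ae_iff]
      simp only [not_not]
      exact le_antisymm ((Measure.restrict_apply_le _ _).trans hvol.le) bot_le
    filter_upwards [h2, ae_restrict_mem measurableSet_ball] with z hz1 hz2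
    rw [mem_union, not_or] at hz1
    exact (key z (mem_ball_zero_iff.1 hz2).le (fun t ht => hz1.1 ⟨t, ht⟩)
      (fun t ht => hz1.2 ⟨t, ht⟩)).2
  refine (lintegral_mono_ae h1).trans_lt ?_
  rw [lintegral_add_left measurable_const, lintegral_const, Measure.restrict_apply_univ,
    lintegral_const_mul' _ _ (by norm_num), lintegral_const_mul' _ _ ENNReal.ofReal_ne_top,
    lintegral_add_left (measurable_HH a L q)]
  refine ENNReal.add_lt_top.2 ⟨ENNReal.mul_lt_top ENNReal.ofReal_lt_top measure_ball_lt_top, ?_⟩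
  refine ENNReal.mul_lt_top (by norm_num) (ENNReal.mul_lt_top ENNReal.ofReal_lt_top
    (ENNReal.add_lt_top.2 ⟨?_, ?_⟩))
  · exact lt_top_iff_ne_top.mpr (lintegral_HH a L q hL hq0 hq2 R)
  · exact lt_top_iff_ne_top.mpr (lintegral_HH b L q hL hq0 hq2 R)

end Pool.Agent.R276.SI.Fin
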