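import Pool.Agent.Y283.TO.Sys

/-!
# Project SI (MP_5ac32f_an): singular integral operators `a P + b Q` on Banach spaces

Statements of the independent parts; proofs in `NOTES.md`.  `CT = C(UnitAddCircle, ℂ)`, `ft n` Fourier
coefficient, `cexp`, `ps`, `psm`, `HD`, `rl`, `HH` are from `Pool/Agent/Y283/TO`.
-/

set_option autoImplicit false

noncomputable section

namespace Pool.Agent.R276.SI

open MeasureTheory AddCircle Set Filter Topology Metric
open scoped ENNReal NNReal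
open Pool.Agent.Y283.TO

/-- A Banach space of functions on the circle: `e n` are the exponentials, `M a` is the multiplication by
the continuous function `a`, `P` the projection on the nonnegative frequencies, `ε₀` the mean. -/
structure SIO {X : Type} [NormedAddCommGroup X] [NormedSpace ℂ X] (e : ℤ → X) (ε₀ : X →L[ℂ] ℂ)
    (M : CT → (X →L[ℂ] X)) (P : X →L[ℂ] X) : Prop where
  dense : Dense (Submodule.span ℂ (Set.range e) : Set X)
  add : ∀ a b, M (a + b) = M a + M b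
  smul : ∀ (c : ℂ) (a : CT), M (c • a) = c • M a
  one : M 1 = 1
  mul : ∀ a b, M (a * b) = M a * M b
  bound : ∃ K : ℝ, 0 ≤ K ∧ ∀ a, ‖M a‖ ≤ K * ‖a‖
  shift : ∀ m n : ℤ, M (fourier m) (e n) = e (n + m)
  proj : ∀ n : ℤ, P (e n) = if 0 ≤ n then e n else 0
  coord : ∀ n : ℤ, ε₀ (e n) = if n = 0 then 1 else 0

/-- ALG: algebraic properties -/
def S_ALG : Prop :=
  ∀ (X : Type) [NormedAddCommGroup X] [NormedSpace ℂ X] (e : ℤ → X) (ε₀ : X →L[ℂ] ℂ)
    (M : CT → (X →L[ℂ] X)) (P : X →L[ℂ] X), SIO e ε₀ M P →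
    P * P = P ∧
    (∀ c : ℕ → ℂ, (Summable fun n => ‖c n‖) →
      P * M (cexp (ps c)) * P = M (cexp (ps c)) * P ∧
      P * M (cexp (psm c)) * P = P * M (cexp (psm c))) ∧
    (∀ (g : CT) (n : ℤ), ε₀ (M g (e n)) = ft (-n) g) ∧
    (∀ (k : ℤ) (d : ℕ → ℂ), k < 0 → (Summable fun n => ‖d n‖) →
      P (M (fourier k * cexp (psm d)) (e 0)) = 0)

/-- ESS: the values of the coefficients are in the spectrum -/
def S_ESS : Prop :=
  ∀ (X : Type) [NormedAddCommGroup X] [NormedSpace ℂ X] [CompleteSpace X] (e : ℤ → X)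
    (ε₀ : X →L[ℂ] ℂ) (M : CT → (X →L[ℂ] X)) (P : X →L[ℂ] X), SIO e ε₀ M P →
    ∀ (a b : CT) (z : ℂ), z ∈ resolventSet ℂ (M a * P + M b * (1 - P) : X →L[ℂ] X) →
      (∀ t, a t ≠ z) ∧ (∀ t, b t ≠ z)

/-- FAC: factorisation of `(a - z) / (b - z)` with bounds -/
def S_FAC : Prop :=
  ∀ (a b : CT) (L q : ℝ), 0 < L → 1 / 2 ≤ q → 2 * q ^ 2 < 1 → HD (rl a) L q → HD (rl b) L q →
    ∀ R : ℝ, ∃ C : ℝ, 0 ≤ C ∧ ∀ z : ℂ, ‖z‖ ≤ R → (∀ t, a t ≠ z) → (∀ t, b t ≠ z) →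
      ∃ (k : ℤ) (c d : ℕ → ℂ) (w : CT), (Summable fun n => ‖c n‖) ∧ (Summable fun n => ‖d n‖) ∧
        a - algebraMap ℂ CT z =
          (b - algebraMap ℂ CT z) * fourier k * cexp (ps c) * cexp (psm d) ∧
        (b - algebraMap ℂ CT z) * w = 1 ∧
        ENNReal.ofReal (‖ps c‖ + ‖psm d‖ + Real.posLog ‖w‖) ≤
          ENNReal.ofReal C * (HH a L q z + HH b L q z)

end Pool.Agent.R276.SI
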